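import Mathlib

/-!
# Schemes of finite type over the integers, curves with their Jacobians, and `K'`-theory
-/

set_option autoImplicit false

namespace Pool.Agent.R900.KB

/-- Data: a class of schemes of finite type over `ℤ`: all of them, or those over finite fields. (We only
consider reduced ones, as `K'`-theory depends only on the reduced subscheme.)

* `dim`: the Krull dimension (`0` for the empty scheme);
* `Cut Z X U`: `Z` is a closed subscheme of `X` and `U` is its open complement;
* `Cover e U' U`: there is a finite surjective morphism `U' → U` of degree `e`, and `U`, `U'` are regular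
  and connected;
* `Point U`: `U` is the spectrum of a finite field or of a ring `O_F[1 / m]`, `F` a number field;
* `Curve g N C V P J`: `C → V` is a smooth projective curve with geometrically connected fibres of genus
  `g` and with a section, `V` is regular, affine and connected, `J → V` is its Jacobian, `2 g ≤ N + 1`, `1 ≤ N`
  and `P` is the `N`-th symmetric power of `C` over `V`;
* `torus X` is the product of `X` and the multiplicative group. -/
structure Schemes (S : Type) where
  dim : S → ℕ
  Empty : S → Prop
  Cut : S → S → S → Prop
  Cover : ℕ → S → S → Prop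
  Point : S → Prop
  Curve : ℕ → ℕ → S → S → S → S → Prop
  torus : S → S

/-- `J` is the Jacobian of a curve over a base of dimension less than `d`. -/
def JacobianBelow {S : Type} (G : Schemes S) (d : ℕ) (J : S) : Prop :=
  ∃ g N C V P, G.Curve g N C V P J ∧ G.dim V < d

/-- `J` is the Jacobian of a curve. -/
def Jacobian {S : Type} (G : Schemes S) (J : S) : Prop := ∃ g N C V P, G.Curve g N C V P J

/-- `U` has a finite covering `U'`, of degree prime to `l`, that is an open subscheme of a smooth projective
curve `C → V` with a section, with a complement `T`; the dimensions of `V` and `T` are less than `d`. -/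
def IsFibred {S : Type} (G : Schemes S) (l d : ℕ) (U : S) : Prop :=
  ∃ e U' T C V P J g N, e.Coprime l ∧ G.Cover e U' U ∧ G.Cut T C U' ∧ G.Curve g N C V P J ∧
    G.dim T < d ∧ G.dim V < d

/-- Every nonempty scheme `X` has a nonempty open subscheme `U`, with a complement `Z`, which is a `Point` or
fibred in curves as in `IsFibred`.

For `l = 1` this is true for all schemes of finite type over `ℤ`: the function field `K` of a component of `X`
is the function field of a curve over a subfield `L`; after finite extensions of `K` and `L` the curve is
smooth with a rational point; spread out. For every `l` it is true for the schemes over finite fields: `K` is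
the function field of a normal projective variety `Y`; after a finite extension of the finite field, of
degree prime to `l`, there are a smooth rational point `x` of `Y` and a general linear projection of
`Y` to a projective space of dimension `dim Y - 1` which is not defined at `x` and finitely many other points;
blow up these points. -/
def HasFibrations {S : Type} (G : Schemes S) (l : ℕ) : Prop :=
  ∀ X, ¬ G.Empty X → ∃ Z U, G.Cut Z X U ∧ ¬ G.Empty U ∧ (G.Point U ∨ IsFibred G l (G.dim X) U)

/-- The facts on schemes which are used. `noeth`: schemes are noetherian (induction on closed subsets).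
`torus`: base change to the product of `V` and the multiplicative group. -/
structure IsSchemes {S : Type} (G : Schemes S) : Prop where
  noeth : WellFounded fun Z X => ∃ U, G.Cut Z X U ∧ ¬ G.Empty U
  dim_le : ∀ Z X U, G.Cut Z X U → G.dim Z ≤ G.dim X
  generic : HasFibrations G 1
  torus : ∀ g N C V P J, G.Curve g N C V P J →
    G.Curve g N (G.torus C) (G.torus V) (G.torus P) (G.torus J)

/-- Data: the groups `K i X = K'_i(X)` of Quillen (zero for `i < 0`). -/
structure KTheory (S : Type) where
  K : ℤ → S → Type
  [group : ∀ i X, AddCommGroup (K i X)]

attribute [instance] KTheory.group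

/-- The localization sequence for a closed subscheme `Z` of `X` with the complement `U`. -/
def HasSequence {S : Type} (T : KTheory S) (Z X U : S) : Prop :=
  ∃ (a : ∀ i, T.K i Z →+ T.K i X) (b : ∀ i, T.K i X →+ T.K i U)
    (c : ∀ i, T.K i U →+ T.K (i - 1) Z), ∀ i,
      Function.Exact (a i) (b i) ∧ Function.Exact (b i) (c i) ∧ Function.Exact (c i) (a (i - 1))

/-- Homomorphisms `u`, `v` with `v ∘ u = m`, for a finite covering `f : U' → U` of regular schemes. With
`u = f^*` the composition `f_* ∘ u` is the multiplication by the class of `f_* O`, which is the degree plus a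
nilpotent operator `t`; so one gets such a `v`, for a power `m` of the degree, from `f_*` and a polynomial in
`t`. -/
def HasTransfer {S : Type} (T : KTheory S) (m : ℕ) (i : ℤ) (U' U : S) : Prop :=
  ∃ (u : T.K i U →+ T.K i U') (v : T.K i U' →+ T.K i U), ∀ x, v (u x) = m • x

/-- For a curve `p : C → V` with section `s` let `iota` and `rho` be given by the closed immersion
`x ↦ x + (N - 1) s` into `P = Sym^N C` and by the correspondence of all `(D, x)`, `x` in `D`, and let
`sigma = s_*`. Then `rho (iota x) = x + sigma (tau x)` where `tau x` is the sum of the `p_* (x ⊗ L_j)`,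
`0 ≤ j < N - 1`, for certain line bundles `L_j` on `C`. -/
def CurveFormula {S : Type} (T : KTheory S) (i : ℤ) (C V P : S) : Prop :=
  ∃ (iota : T.K i C →+ T.K i P) (rho : T.K i P →+ T.K i C)
    (tau : T.K i C →+ T.K i V) (sigma : T.K i V →+ T.K i C),
      ∀ x, rho (iota x) = x + sigma (tau x)

/-- The properties of these groups that are used (all known).

`loc`: localization sequences. `cover`: see `HasTransfer`. `torsion`: for `i ≥ dim X` the
subgroups of elements of order dividing `m` are finite (Voevodsky and Rost; Geisser and Levine). `point`: finite
generation for finite fields and for `O_F[1 / m]`. `torus`: the fundamental theorem. `curve`: see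
`CurveFormula`. `bundle`: `P` is the projective bundle of a vector bundle of rank `N - g + 1` over `J`. -/
structure IsKTheory {S : Type} (G : Schemes S) (T : KTheory S) : Prop where
  empty : ∀ i X, G.Empty X → Subsingleton (T.K i X)
  loc : ∀ Z X U, G.Cut Z X U → HasSequence T Z X U
  cover : ∀ e U' U, G.Cover e U' U → 0 < e ∧ ∃ k, ∀ i, HasTransfer T (e ^ k) i U' U
  torsion : ∀ X, ∀ i : ℤ, G.dim X ≤ i → ∀ m : ℕ, 0 < m → {x : T.K i X | m • x = 0}.Finite
  point : ∀ i X, G.Point X → AddGroup.FG (T.K i X)
  torus : ∀ i X, Nonempty (T.K i (G.torus X) ≃+ T.K i X × T.K (i - 1) X)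
  curve : ∀ g N C V P J, G.Curve g N C V P J → ∀ i, CurveFormula T i C V P
  bundle : ∀ g N C V P J, G.Curve g N C V P J → ∀ i,
    Nonempty (T.K i P ≃+ (Fin (N - g + 1) → T.K i J))

/-- `A` is finitely generated up to a group of finite exponent prime to `l`: there are `m > 0` prime to `l`
and a finitely generated subgroup `F` with `m A ⊆ F`. -/
def AlmostFG (l : ℕ) (A : Type) [AddCommGroup A] : Prop :=
  ∃ m : ℕ, 0 < m ∧ m.Coprime l ∧ ∃ F : AddSubgroup A, F.FG ∧ ∀ x : A, m • x ∈ F

/-- For every `n`: the groups `K'_n` of all schemes are finitely generated up to groups of finite exponent if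
and only if those of the Jacobians of curves are. -/
def OneDegree {S : Type} (G : Schemes S) (T : KTheory S) : Prop :=
  ∀ n : ℤ, (∀ X, AlmostFG 1 (T.K n X)) ↔ ∀ J, Jacobian G J → AlmostFG 1 (T.K n J)

/-- If this is so for `n`, then `K'_i(X)` is finitely generated for all schemes `X` and all `i` with
`dim X ≤ i ≤ n`. -/
def LargeDegrees {S : Type} (G : Schemes S) (T : KTheory S) : Prop :=
  ∀ n : ℤ, (∀ J, Jacobian G J → AlmostFG 1 (T.K n J)) →
    ∀ X, ∀ i ≤ n, G.dim X ≤ i → AddGroup.FG (T.K i X)

/-- If the groups `K'_i`, `i ≤ n`, of the Jacobians over bases of dimension less than `d` are finitely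
generated up to groups of finite exponent, then those of all schemes of dimension at most `d` are. -/
def Bounded {S : Type} (G : Schemes S) (T : KTheory S) : Prop :=
  ∀ n : ℤ, ∀ d, (∀ J, JacobianBelow G d J → ∀ i ≤ n, AlmostFG 1 (T.K i J)) →
    ∀ X, G.dim X ≤ d → ∀ i ≤ n, AlmostFG 1 (T.K i X)

/-- For every `n`: the groups `K'_n` of all schemes are finitely generated if and only if those of the
Jacobians of curves are. -/
def OneDegreeIntegral {S : Type} (G : Schemes S) (T : KTheory S) : Prop :=
  ∀ n : ℤ, (∀ X, AddGroup.FG (T.K n X)) ↔ ∀ J, Jacobian G J → AddGroup.FG (T.K n J)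

/-- If the groups `K'_i`, `i ≤ n`, of the Jacobians over bases of dimension less than `d` are finitely
generated, then those of all schemes of dimension at most `d` are. -/
def BoundedIntegral {S : Type} (G : Schemes S) (T : KTheory S) : Prop :=
  ∀ n : ℤ, ∀ d, (∀ J, JacobianBelow G d J → ∀ i ≤ n, AddGroup.FG (T.K i J)) →
    ∀ X, G.dim X ≤ d → ∀ i ≤ n, AddGroup.FG (T.K i X)

end Pool.Agent.R900.KB
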