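import Pool.Agent.R900.KB.Defs

/-! # Reduction of the finite generation of `K'`-groups to Jacobians -/

set_option autoImplicit false

namespace Pool.Agent.R900.KB

section Groups

variable {A B C : Type} [AddCommGroup A] [AddCommGroup B] [AddCommGroup C]

lemma fg_of_injective (hB : AddGroup.FG B) (f : A →+ B) (hf : Function.Injective f) :
    AddGroup.FG A := by
  rw [← Module.Finite.iff_addGroup_fg] at hB ⊢
  exact Module.Finite.of_injective f.toIntLinearMap hf

lemma fg_of_ker (hC : AddGroup.FG C) (g : B →+ C) (hk : AddGroup.FG g.ker) : AddGroup.FG B := by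
  rw [← Module.Finite.iff_addGroup_fg] at hC hk ⊢
  have h1 : Module.Finite ℤ (LinearMap.ker g.toIntLinearMap) := by
    let e : g.ker →ₗ[ℤ] LinearMap.ker g.toIntLinearMap :=
      { toFun := fun x => ⟨x.1, x.2⟩
        map_add' := fun _ _ => rfl
        map_smul' := fun _ _ => rfl }
    exact Module.Finite.of_surjective e fun x => ⟨⟨x.1, x.2⟩, rfl⟩
  have h2 : Module.Finite ℤ (B ⧸ LinearMap.ker g.toIntLinearMap) :=
    Module.Finite.equiv g.toIntLinearMap.quotKerEquivRange.symm
  exact Module.Finite.of_submodule_quotient (LinearMap.ker g.toIntLinearMap)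

lemma fg_map {F : AddSubgroup A} (hF : F.FG) (f : A →+ B) : (F.map f).FG := by
  classical
  obtain ⟨s, hs⟩ := hF
  refine ⟨s.image f, ?_⟩
  rw [Finset.coe_image, ← AddMonoidHom.map_closure, hs]

lemma fg_sup {F F' : AddSubgroup A} (hF : F.FG) (hF' : F'.FG) : (F ⊔ F').FG := by
  classical
  obtain ⟨s, hs⟩ := hF
  obtain ⟨t, ht⟩ := hF'
  refine ⟨s ∪ t, ?_⟩
  rw [Finset.coe_union, AddSubgroup.closure_union, hs, ht]

/-- Lifting of finitely generated subgroups of the image. -/
lemma exists_lift {F : AddSubgroup B} (hF : F.FG) (f : A →+ B) (h : F ≤ f.range) :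
    ∃ L : AddSubgroup A, L.FG ∧ L.map f = F := by
  classical
  obtain ⟨s, hs⟩ := hF
  have h1 : ∀ y ∈ s, ∃ x, f x = y := fun y hy =>
    h (by rw [← hs]; exact AddSubgroup.subset_closure hy)
  choose! r hr using h1
  refine ⟨AddSubgroup.closure (s.image r), ⟨s.image r, rfl⟩, ?_⟩
  rw [AddMonoidHom.map_closure, ← hs, Finset.coe_image, Set.image_image]
  congr 1
  ext y
  constructor
  · rintro ⟨x, hx, rfl⟩
    show f (r x) ∈ (s : Set B)
    rw [hr x hx]
    exact hx
  · intro hy
    exact ⟨y, hy, hr y hy⟩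

variable {l : ℕ}

lemma AlmostFG.of_fg (hA : AddGroup.FG A) : AlmostFG l A := by
  refine ⟨1, one_pos, Nat.coprime_one_left l, ⊤, ?_, fun x => AddSubgroup.mem_top _⟩
  rwa [← AddGroup.fg_def]

lemma AlmostFG.of_subsingleton [Subsingleton A] : AlmostFG l A :=
  ⟨1, one_pos, Nat.coprime_one_left l, ⊥, ⟨∅, by simp⟩,
    fun x => by rw [Subsingleton.elim x 0]; simp⟩

lemma AlmostFG.of_surjective (hA : AlmostFG l A) (f : A →+ B) (hf : Function.Surjective f) :
    AlmostFG l B := by
  obtain ⟨m, hm, hml, F, hF, h⟩ := hA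
  refine ⟨m, hm, hml, F.map f, fg_map hF f, fun y => ?_⟩
  obtain ⟨x, rfl⟩ := hf y
  rw [← map_nsmul]
  exact AddSubgroup.mem_map_of_mem f (h x)

lemma AlmostFG.of_injective (hB : AlmostFG l B) (f : A →+ B) (hf : Function.Injective f) :
    AlmostFG l A := by
  obtain ⟨m, hm, hml, F, hF, h⟩ := hB
  refine ⟨m, hm, hml, F.comap f, ?_, fun x => ?_⟩
  · rw [← AddGroup.fg_iff_addSubgroup_fg] at hF ⊢
    let e : F.comap f →+ F :=
      { toFun := fun x => ⟨f x.1, x.2⟩
        map_zero' := by ext; simp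
        map_add' := fun _ _ => by ext; simp }
    exact fg_of_injective hF e fun x y hxy => Subtype.ext (hf (congrArg Subtype.val hxy))
  · rw [AddSubgroup.mem_comap, map_nsmul]
    exact h _

lemma AlmostFG.of_exact (hA : AlmostFG l A) (hC : AlmostFG l C) (f : A →+ B) (g : B →+ C)
    (h : Function.Exact f g) : AlmostFG l B := by
  have hC' : AlmostFG l g.range := hC.of_injective g.range.subtype Subtype.val_injective
  obtain ⟨m, hm, hml, F, hF, hmF⟩ := hA
  obtain ⟨n, hn, hnl, E, hE, hnE⟩ := hC'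
  obtain ⟨L, hL, hLE⟩ := exists_lift hE g.rangeRestrict fun y _ => by
    obtain ⟨x, hx⟩ := y.2
    exact ⟨x, Subtype.ext hx⟩
  refine ⟨m * n, Nat.mul_pos hm hn, hml.mul_left hnl, F.map f ⊔ L, fg_sup (fg_map hF f) hL,
    fun b => ?_⟩
  have h1 : n • g.rangeRestrict b ∈ L.map g.rangeRestrict := by
    rw [hLE]
    exact hnE _
  obtain ⟨c, hc, hc'⟩ := h1
  have h2 : g (n • b - c) = 0 := by
    have h3 := congrArg Subtype.val hc'
    simp only [AddMonoidHom.coe_rangeRestrict, AddSubgroup.coe_nsmul] at h3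
    rw [map_sub, map_nsmul, h3, sub_self]
  obtain ⟨a, ha⟩ := (h _).1 h2
  have h4 : (m * n) • b = f (m • a) + m • c := by
    rw [map_nsmul, ha, smul_sub, mul_smul, sub_add_cancel]
  rw [h4]
  exact AddSubgroup.add_mem_sup (AddSubgroup.mem_map_of_mem f (hmF a)) (L.nsmul_mem hc m)

lemma AlmostFG.of_cover (hB : AlmostFG l B) {m : ℕ} (hm : 0 < m) (hml : m.Coprime l)
    (u : A →+ B) (v : B →+ A) (h : ∀ x, v (u x) = m • x) : AlmostFG l A := by
  obtain ⟨n, hn, hnl, F, hF, hnF⟩ := hB
  refine ⟨n * m, Nat.mul_pos hn hm, hnl.mul_left hml, F.map v, fg_map hF v, fun x => ?_⟩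
  rw [mul_smul, ← h x, ← map_nsmul]
  exact AddSubgroup.mem_map_of_mem v (hnF _)

lemma AlmostFG.prod (hA : AlmostFG l A) (hB : AlmostFG l B) : AlmostFG l (A × B) :=
  hA.of_exact hB (AddMonoidHom.inl A B) (AddMonoidHom.snd A B) fun x => by
    constructor
    · intro hx
      exact ⟨x.1, Prod.ext rfl hx.symm⟩
    · rintro ⟨a, rfl⟩
      rfl

lemma AlmostFG.pi (hA : AlmostFG l A) (e : ℕ) : AlmostFG l (Fin e → A) := by
  induction e with
  | zero => exact .of_subsingleton
  | succ e ih =>
    let f : A × (Fin e → A) →+ (Fin (e + 1) → A) :=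
      { toFun := fun x => Fin.cons x.1 x.2
        map_zero' := by
          ext i
          refine Fin.cases ?_ (fun j => ?_) i <;> simp
        map_add' := fun x y => by
          ext i
          refine Fin.cases ?_ (fun j => ?_) i <;> simp }
    exact (hA.prod ih).of_surjective f fun x => ⟨(x 0, Fin.tail x), Fin.cons_self_tail x⟩

lemma AlmostFG.fg (hA : AlmostFG l A) (ht : ∀ m : ℕ, 0 < m → {x : A | m • x = 0}.Finite) :
    AddGroup.FG A := by
  obtain ⟨m, hm, -, F, hF, h⟩ := hA
  rw [← AddGroup.fg_iff_addSubgroup_fg] at hF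
  let f : A →+ F :=
    { toFun := fun x => ⟨m • x, h x⟩
      map_zero' := by ext; simp
      map_add' := fun _ _ => by ext; simp }
  refine fg_of_ker hF f ?_
  have : Finite f.ker := by
    refine Set.Finite.subset (ht m hm) fun x hx => ?_
    exact congrArg Subtype.val (show f x = 0 from hx)
  infer_instance

/-- If `A` is almost finitely generated at all primes then it is finitely generated. -/
lemma fg_of_primes (h : ∀ l : ℕ, l.Prime → AlmostFG l A) : AddGroup.FG A := by
  -- the ideal of all `m` for which `m A` lies in a finitely generated subgroup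
  let I : Ideal ℤ :=
    { carrier := {m | ∃ F : AddSubgroup A, F.FG ∧ ∀ x : A, m • x ∈ F}
      zero_mem' := ⟨⊥, ⟨∅, by simp⟩, fun x => by simp⟩
      add_mem' := by
        rintro a b ⟨F, hF, ha⟩ ⟨E, hE, hb⟩
        refine ⟨F ⊔ E, fg_sup hF hE, fun x => ?_⟩
        rw [add_smul]
        exact AddSubgroup.add_mem_sup (ha x) (hb x)
      smul_mem' := by
        rintro c a ⟨F, hF, ha⟩
        refine ⟨F, hF, fun x => ?_⟩
        rw [smul_eq_mul, mul_smul]
        exact F.zsmul_mem (ha x) c }
  have hI : I = ⊤ := by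
    by_contra hne
    obtain ⟨M, hM, hIM⟩ := Ideal.exists_le_maximal I hne
    obtain ⟨m, hm, -, F, hF, hmF⟩ := h 2 Nat.prime_two
    have hmI : (m : ℤ) ∈ I := ⟨F, hF, fun x => by rw [natCast_zsmul]; exact hmF x⟩
    have hp : M.IsPrime := hM.isPrime
    -- `M` contains a prime number
    obtain ⟨p, hp', hpM⟩ : ∃ p : ℕ, p.Prime ∧ (p : ℤ) ∈ M := by
      have h1 : ∀ n : ℕ, 0 < n → (n : ℤ) ∈ M → ∃ p : ℕ, p.Prime ∧ (p : ℤ) ∈ M := by
        intro n
        induction n using Nat.recOnMul with
        | zero => intro h0; exact absurd h0 (lt_irrefl 0)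
        | one =>
          intro _ h1
          exact absurd ((Ideal.eq_top_iff_one M).2 (by simpa using h1)) hM.ne_top
        | prime p hp => intro _ h1; exact ⟨p, hp, h1⟩
        | mul a b iha ihb =>
          intro hab h1
          have ha : 0 < a := Nat.pos_of_mul_pos_right hab
          have hb : 0 < b := Nat.pos_of_mul_pos_left hab
          rw [Nat.cast_mul] at h1
          rcases hp.mem_or_mem h1 with h2 | h2
          · exact iha ha h2
          · exact ihb hb h2
      exact h1 m hm (hIM hmI)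
    obtain ⟨n, hn, hnp, E, hE, hnE⟩ := h p hp'
    have hnI : (n : ℤ) ∈ I := ⟨E, hE, fun x => by rw [natCast_zsmul]; exact hnE x⟩
    have hcop : IsCoprime (n : ℤ) (p : ℤ) := Nat.isCoprime_iff_coprime.2 hnp
    obtain ⟨a, b, hab⟩ := hcop
    refine hM.ne_top ((Ideal.eq_top_iff_one M).2 ?_)
    rw [← hab]
    exact M.add_mem (M.mul_mem_left a (hIM hnI)) (M.mul_mem_left b hpM)
  obtain ⟨F, hF, hx⟩ : (1 : ℤ) ∈ I := by rw [hI]; exact Submodule.mem_top
  have hFt : F = ⊤ := by
    rw [eq_top_iff]
    intro x _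
    simpa using hx x
  rw [AddGroup.fg_def, ← hFt]
  exact hF

end Groups

variable {S : Type} {G : Schemes S} {T : KTheory S}

/-- The groups of degree at most `n` of `X` are almost finitely generated. -/
def Good (T : KTheory S) (l : ℕ) (n : ℤ) (X : S) : Prop := ∀ i ≤ n, AlmostFG l (T.K i X)

variable {l : ℕ} {n : ℤ}

lemma good_mid (hT : IsKTheory G T) {Z X U : S} (h : G.Cut Z X U)
    (hZ : Good T l n Z) (hU : Good T l n U) : Good T l n X := fun i hi => by
  obtain ⟨a, b, c, habc⟩ := hT.loc Z X U h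
  exact (hZ i hi).of_exact (hU i hi) (a i) (b i) (habc i).1

lemma good_open (hT : IsKTheory G T) {Z X U : S} (h : G.Cut Z X U)
    (hZ : Good T l n Z) (hX : Good T l n X) : Good T l n U := fun i hi => by
  obtain ⟨a, b, c, habc⟩ := hT.loc Z X U h
  exact (hX i hi).of_exact (hZ (i - 1) (by omega)) (b i) (c i) (habc i).2.1

lemma good_cover (hT : IsKTheory G T) {e : ℕ} {U' U : S} (h : G.Cover e U' U) (he : e.Coprime l)
    (hU : Good T l n U') : Good T l n U := fun i hi => by
  obtain ⟨he0, k, h'⟩ := hT.cover e U' U h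
  obtain ⟨u, v, huv⟩ := h' i
  exact (hU i hi).of_cover (pow_pos he0 k) (he.pow_left k) u v huv

lemma good_curve (hT : IsKTheory G T) {g N : ℕ} {C V P J : S} (h : G.Curve g N C V P J)
    (hV : Good T l n V) (hP : Good T l n P) : Good T l n C := fun i hi => by
  obtain ⟨iota, rho, tau, sigma, hx⟩ := hT.curve g N C V P J h i
  refine ((hP i hi).prod (hV i hi)).of_surjective (rho.coprod sigma) fun x =>
    ⟨(iota x, -(tau x)), ?_⟩
  rw [AddMonoidHom.coprod_apply, map_neg, hx]
  abel

lemma good_bundle (hT : IsKTheory G T) {g N : ℕ} {C V P J : S} (h : G.Curve g N C V P J)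
    (hJ : Good T l n J) : Good T l n P := fun i hi => by
  obtain ⟨e⟩ := hT.bundle g N C V P J h i
  exact ((hJ i hi).pi _).of_injective e.toAddMonoidHom e.injective

lemma good_empty (hT : IsKTheory G T) {X : S} (h : G.Empty X) : Good T l n X := fun i _ => by
  have := hT.empty i X h
  exact .of_subsingleton

lemma good_of_bounded (hG : IsSchemes G) (hT : IsKTheory G T) (hl : HasFibrations G l) {d : ℕ}
    (hJ : ∀ J, JacobianBelow G d J → Good T l n J) : ∀ X, G.dim X ≤ d → Good T l n X := by
  suffices hk : ∀ k, ∀ X, G.dim X < k → G.dim X ≤ d → Good T l n X from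
    fun X hX => hk (G.dim X + 1) X (Nat.lt_succ_self _) hX
  intro k
  induction k with
  | zero => exact fun X hX => absurd hX (Nat.not_lt_zero _)
  | succ k ih =>
    intro X
    induction X using hG.noeth.induction with
    | _ X ihX =>
      intro hX hXd
      by_cases hE : G.Empty X
      · exact good_empty hT hE
      · obtain ⟨Z, U, hcut, hU, hgen⟩ := hl X hE
        have hZ := hG.dim_le Z X U hcut
        refine good_mid hT hcut (ihX Z ⟨U, hcut, hU⟩ (by omega) (by omega)) ?_
        rcases hgen with hp | ⟨e, U', T', C, V, P, J, g, N, hel, hcov, hcut', hcurve, hT', hV⟩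
        · exact fun i _ => .of_fg (hT.point i U hp)
        · have hC := good_curve hT hcurve (ih V (by omega) (by omega))
            (good_bundle hT hcurve (hJ J ⟨g, N, C, V, P, hcurve, by omega⟩))
          exact good_cover hT hcov hel (good_open hT hcut' (ih T' (by omega) (by omega)) hC)

/-- One degree for all Jacobians gives all lower degrees. -/
lemma good_jacobian (hG : IsSchemes G) (hT : IsKTheory G T)
    (h : ∀ J, Jacobian G J → AlmostFG l (T.K n J)) : ∀ J, Jacobian G J → Good T l n J := by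
  have key : ∀ k : ℕ, ∀ J, Jacobian G J → AlmostFG l (T.K (n - k) J) := by
    intro k
    induction k with
    | zero =>
      intro J hJ
      rw [Nat.cast_zero, sub_zero]
      exact h J hJ
    | succ k ih =>
      rintro J ⟨g, N, C, V, P, hJ⟩
      obtain ⟨e⟩ := hT.torus (n - k) J
      have h1 := ih (G.torus J) ⟨g, N, _, _, _, hG.torus g N C V P J hJ⟩
      have h2 : AlmostFG l (T.K (n - k - 1) J) :=
        h1.of_surjective ((AddMonoidHom.snd _ _).comp e.toAddMonoidHom)
          (Prod.snd_surjective.comp e.surjective)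
      have e1 : n - ((k + 1 : ℕ) : ℤ) = n - k - 1 := by push_cast; ring
      rwa [e1]
  intro J hJ i hi
  obtain ⟨k, rfl⟩ : ∃ k : ℕ, i = n - k := ⟨(n - i).toNat, by omega⟩
  exact key k J hJ

lemma good_of_jacobian (hG : IsSchemes G) (hT : IsKTheory G T) (hl : HasFibrations G l)
    (h : ∀ J, Jacobian G J → AlmostFG l (T.K n J)) (X : S) : Good T l n X :=
  good_of_bounded hG hT hl (d := G.dim X) (fun J ⟨g, N, C, V, P, hJ, _⟩ =>
    good_jacobian hG hT h J ⟨g, N, C, V, P, hJ⟩) X le_rfl

theorem bounded (hG : IsSchemes G) (hT : IsKTheory G T) : Bounded G T := fun _ _ hJ =>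
  good_of_bounded hG hT hG.generic hJ

theorem oneDegree (hG : IsSchemes G) (hT : IsKTheory G T) : OneDegree G T := fun n =>
  ⟨fun h J _ => h J, fun h X => good_of_jacobian hG hT hG.generic h X n le_rfl⟩

theorem largeDegrees (hG : IsSchemes G) (hT : IsKTheory G T) : LargeDegrees G T :=
  fun _ h X i hi hd => (good_of_jacobian hG hT hG.generic h X i hi).fg (hT.torsion X i hd)

theorem oneDegreeIntegral (hG : IsSchemes G) (hT : IsKTheory G T)
    (hl : ∀ l : ℕ, l.Prime → HasFibrations G l) : OneDegreeIntegral G T := fun n =>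
  ⟨fun h J _ => h J, fun h X => fg_of_primes fun l hp =>
    good_of_jacobian hG hT (hl l hp) (fun J hJ => .of_fg (h J hJ)) X n le_rfl⟩

theorem boundedIntegral (hG : IsSchemes G) (hT : IsKTheory G T)
    (hl : ∀ l : ℕ, l.Prime → HasFibrations G l) : BoundedIntegral G T :=
  fun _ _ hJ X hX i hi => fg_of_primes fun l hp =>
    good_of_bounded hG hT (hl l hp) (fun J h i hi => .of_fg (hJ J h i hi)) X hX i hi

end Pool.Agent.R900.KB
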